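import Pool.Agent.Run7.h178.SL.Stm2
import Pool.Agent.Run7.h781.SL.LI

/-!
# FREE: free kernels from unique top and bottom letters
-/

set_option autoImplicit false

open Pool.Agent.R655.LI

namespace Run7.h547.SL

open Run7.h178.SL
open Run7.h781.SL
open FreeGroup (of)

theorem grp1 {A : Type} [Group A] (x y z : A) : x * z⁻¹ * y = 1 ↔ z = y * x := by
  rw [mul_eq_one_iff_eq_inv, mul_inv_eq_iff_eq_mul, eq_comm, inv_mul_eq_iff_eq_mul]

theorem grp2 {A : Type} [Group A] (x y z : A) : x * z * y = 1 ↔ z = (y * x)⁻¹ := by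
  rw [mul_inv_rev, eq_inv_mul_iff_mul_eq, mul_eq_one_iff_eq_inv]

/-- the well-founded order of the heights: first the nonnegative ones, then the negative ones -/
def sm (k h : ℤ) : Prop := (0 ≤ k ∧ k < h) ∨ (h < 0 ∧ h < k)

theorem sm_wf : WellFounded sm := by
  have h1 : ∀ n : ℕ, ∀ h : ℤ, 0 ≤ h → h.toNat < n → Acc sm h := by
    intro n
    induction n with
    | zero => intro h _ hn; omega
    | succ n ih =>
      intro h hh hn
      refine Acc.intro _ fun k hk => ?_
      rcases hk with ⟨k0, k1⟩ | ⟨k0, k1⟩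
      · exact ih k k0 (by omega)
      · omega
  have h2 : ∀ n : ℕ, ∀ h : ℤ, h < 0 → (-h).toNat < n → Acc sm h := by
    intro n
    induction n with
    | zero => intro h _ hn; omega
    | succ n ih =>
      intro h hh hn
      refine Acc.intro _ fun k hk => ?_
      rcases hk with ⟨k0, k1⟩ | ⟨k0, k1⟩
      · omega
      · by_cases hk : 0 ≤ k
        · exact h1 _ k hk (Nat.lt_succ_self _)
        · exact ih k (by omega) (by omega)
  refine ⟨fun h => ?_⟩
  by_cases hh : 0 ≤ h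
  · exact h1 _ h hh (Nat.lt_succ_self _)
  · exact h2 _ h (by omega) (Nat.lt_succ_self _)

section

variable {V : Type} (v₀ : V)

/-- the letters with heights in `[lo, hi]` -/
def md (lo hi : ℤ) : Subgroup (NP v₀) :=
  Subgroup.closure {x | ∃ v h, lo ≤ h ∧ h ≤ hi ∧ x = of (v, h)}

/-- the letters with smaller heights in the order `sm` -/
def lw (h : ℤ) : Subgroup (NP v₀) := Subgroup.closure {x | ∃ v k, sm k h ∧ x = of (v, k)}

theorem md_lw {lo hi h : ℤ} (H : ∀ k, lo ≤ k → k ≤ hi → sm k h) : md v₀ lo hi ≤ lw v₀ h := by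
  rw [md, Subgroup.closure_le]
  rintro x ⟨v, k, h1, h2, rfl⟩
  exact Subgroup.subset_closure ⟨v, k, H k h1 h2, rfl⟩

open Classical in
/-- without the letters of the generator `v₀` -/
noncomputable def pr : NN V →* NP v₀ :=
  FreeGroup.lift fun p => if h : p.1 = v₀ then 1 else of (⟨p.1, h⟩, p.2)

theorem pr_of {v : V} (h : v ≠ v₀) (k : ℤ) : pr v₀ (of (v, k)) = of (⟨v, h⟩, k) := by
  rw [pr, FreeGroup.lift_apply_of]
  exact dif_neg h

theorem bk_pr {v : V} (h : v ≠ v₀) (k : ℤ) : bk v₀ (pr v₀ (of (v, k))) = back v₀ (of (v, k)) := by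
  rw [pr_of v₀ h, bk_of, back, FreeGroup.lift_apply_of]

theorem mid_pr {lo hi : ℤ} {u : NN V} (hu : u ∈ mid v₀ lo hi) :
    pr v₀ u ∈ md v₀ lo hi ∧ bk v₀ (pr v₀ u) = back v₀ u := by
  induction hu using Subgroup.closure_induction with
  | mem x hx =>
    obtain ⟨v, h, hv, h1, h2, rfl⟩ := hx
    refine ⟨?_, bk_pr v₀ hv h⟩
    rw [pr_of v₀ hv]
    exact Subgroup.subset_closure ⟨⟨v, hv⟩, h, h1, h2, rfl⟩
  | one => exact ⟨by rw [map_one]; exact Subgroup.one_mem _, by rw [map_one, map_one, map_one]⟩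
  | mul x y _ _ hx hy =>
    exact ⟨by rw [map_mul]; exact Subgroup.mul_mem _ hx.1 hy.1,
      by rw [map_mul, map_mul, map_mul, hx.2, hy.2]⟩
  | inv x _ hx =>
    exact ⟨by rw [map_inv]; exact Subgroup.inv_mem _ hx.1, by rw [map_inv, map_inv, map_inv, hx.2]⟩

theorem act_md {lo hi : ℤ} {u : NP v₀} (hu : u ∈ md v₀ lo hi) (e : Multiplicative ℤ) :
    act v₀ e u ∈ md v₀ (lo + e.toAdd) (hi + e.toAdd) := by
  induction hu using Subgroup.closure_induction with
  | mem x hx =>
    obtain ⟨v, h, h1, h2, rfl⟩ := hx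
    rw [act_of]
    exact Subgroup.subset_closure ⟨v, h + e.toAdd, by omega, by omega, rfl⟩
  | one => rw [map_one]; exact Subgroup.one_mem _
  | mul x y _ _ hx hy => rw [map_mul]; exact Subgroup.mul_mem _ hx hy
  | inv x _ hx => rw [map_inv]; exact Subgroup.inv_mem _ hx

theorem agreeL {h : ℤ} {u : NP v₀} (hu : u ∈ lw v₀ h) {A : Type} [Group A] {Φ Ψ : NP v₀ →* A}
    (H : ∀ v k, sm k h → Φ (of (v, k)) = Ψ (of (v, k))) : Φ u = Ψ u := by
  induction hu using Subgroup.closure_induction with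
  | mem x hx =>
    obtain ⟨v, k, hk, rfl⟩ := hx
    exact H v k hk
  | one => rw [map_one, map_one]
  | mul x y _ _ hx hy => rw [map_mul, map_mul, hx, hy]
  | inv x _ hx => rw [map_inv, map_inv, hx]

theorem memL {h : ℤ} {u : NP v₀} (hu : u ∈ lw v₀ h) {A : Type} [Group A] {Φ : NP v₀ →* A}
    {S : Subgroup A} (H : ∀ v k, sm k h → Φ (of (v, k)) ∈ S) : Φ u ∈ S := by
  induction hu using Subgroup.closure_induction with
  | mem x hx =>
    obtain ⟨v, k, hk, rfl⟩ := hx
    exact H v k hk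
  | one => rw [map_one]; exact Subgroup.one_mem _
  | mul x y _ _ hx hy => rw [map_mul]; exact Subgroup.mul_mem _ hx hy
  | inv x _ hx => rw [map_inv]; exact Subgroup.inv_mem _ hx

/-- well-founded recursion -/
theorem exists_phi (W : {v : V // v ≠ v₀} × ℤ → NP v₀) (base : {v : V // v ≠ v₀} × ℤ → Prop)
    (hW : ∀ p, ¬ base p → W p ∈ lw v₀ p.2) : ∃ Φ : NP v₀ →* NP v₀,
      (∀ p, base p → Φ (of p) = of p) ∧ ∀ p, ¬ base p → Φ (of p) = Φ (W p) := by
  classical
  let F : ∀ h : ℤ, (∀ k, sm k h → ({v : V // v ≠ v₀} → NP v₀)) → {v : V // v ≠ v₀} → NP v₀ :=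
    fun h rec v => if base (v, h) then of (v, h) else
      FreeGroup.lift (fun q : {v : V // v ≠ v₀} × ℤ =>
        if hq : sm q.2 h then rec q.2 hq q.1 else 1) (W (v, h))
  let φ : ℤ → {v : V // v ≠ v₀} → NP v₀ := sm_wf.fix F
  have hφ : ∀ h, φ h = F h fun k _ => φ k := fun h => sm_wf.fix_eq F h
  let Φ : NP v₀ →* NP v₀ := FreeGroup.lift fun p => φ p.2 p.1
  have hΦ : ∀ p, Φ (of p) = φ p.2 p.1 := fun p => FreeGroup.lift_apply_of
  refine ⟨Φ, fun p hp => ?_, fun p hp => ?_⟩
  · rw [hΦ, hφ]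
    exact if_pos hp
  · rw [hΦ, hφ]
    have h1 : F p.2 (fun k _ => φ k) p.1 = FreeGroup.lift (fun q : {v : V // v ≠ v₀} × ℤ =>
        if hq : sm q.2 p.2 then φ q.2 q.1 else 1) (W p) := if_neg hp
    rw [h1]
    refine agreeL v₀ (hW p hp) fun v k hk => ?_
    rw [FreeGroup.lift_apply_of, hΦ]
    exact dif_pos hk

/-- the endomorphism is the identity modulo relators -/
theorem phi_mod {W : {v : V // v ≠ v₀} × ℤ → NP v₀} {base : {v : V // v ≠ v₀} × ℤ → Prop}
    (hW : ∀ p, ¬ base p → W p ∈ lw v₀ p.2) {Φ : NP v₀ →* NP v₀}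
    (h1 : ∀ p, base p → Φ (of p) = of p) (h2 : ∀ p, ¬ base p → Φ (of p) = Φ (W p))
    {A : Type} [Group A] (M : NP v₀ →* A) (hM : ∀ p, ¬ base p → M (of p) = M (W p)) (y : NP v₀) :
    M (Φ y) = M y := by
  have key : ∀ h : ℤ, ∀ v, M (Φ (of (v, h))) = M (of (v, h)) := by
    intro h
    induction h using sm_wf.induction with
    | _ h ih =>
      intro v
      by_cases hp : base (v, h)
      · rw [h1 _ hp]
      · rw [h2 _ hp, hM _ hp]
        exact agreeL v₀ (hW _ hp) (Φ := M.comp Φ) (Ψ := M) fun v' k hk => ih k hk v'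
  have h3 : M.comp Φ = M := by
    apply FreeGroup.ext_hom
    intro p
    exact key p.2 p.1
  exact DFunLike.congr_fun h3 y

/-- the image of the endomorphism -/
theorem phi_mem {W : {v : V // v ≠ v₀} × ℤ → NP v₀} {base : {v : V // v ≠ v₀} × ℤ → Prop}
    (hW : ∀ p, ¬ base p → W p ∈ lw v₀ p.2) {Φ : NP v₀ →* NP v₀}
    (h1 : ∀ p, base p → Φ (of p) = of p) (h2 : ∀ p, ¬ base p → Φ (of p) = Φ (W p))
    {A : Type} [Group A] (M : NP v₀ →* A) (S : Subgroup A) (hS : ∀ p, base p → M (of p) ∈ S)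
    (y : NP v₀) : M (Φ y) ∈ S := by
  have key : ∀ h : ℤ, ∀ v, M (Φ (of (v, h))) ∈ S := by
    intro h
    induction h using sm_wf.induction with
    | _ h ih =>
      intro v
      by_cases hp : base (v, h)
      · rw [h1 _ hp]
        exact hS _ hp
      · rw [h2 _ hp]
        exact memL v₀ (hW _ hp) (Φ := M.comp Φ) fun v' k hk => ih k hk v'
  induction y using FreeGroup.induction_on with
  | C1 => rw [map_one, map_one]; exact Subgroup.one_mem _
  | of p => exact key p.2 p.1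
  | inv_of p hp => rw [map_inv, map_inv]; exact Subgroup.inv_mem _ hp
  | mul x y hx hy => rw [map_mul, map_mul]; exact Subgroup.mul_mem _ hx hy

end

theorem t_FREE : S_FREE := by
  intro V R _ β r v₀ hβ htb
  classical
  have hne : ∀ i, β i ≠ v₀ := fun i => (htb i).1
  have hdat : ∀ i, ∃ (B T : ℤ) (ζ a b c d : NP v₀), B < T ∧ bk v₀ ζ = r i ∧
      a ∈ md v₀ B (T - 1) ∧ b ∈ md v₀ B (T - 1) ∧ c ∈ md v₀ (B + 1) T ∧ d ∈ md v₀ (B + 1) T ∧
      ζ = a * (of ((⟨β i, hne i⟩ : {v : V // v ≠ v₀}), T))⁻¹ * b ∧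
      ζ = c * of ((⟨β i, hne i⟩ : {v : V // v ≠ v₀}), B) * d := by
    intro i
    obtain ⟨-, B, T, ζ, hBT, hr, ⟨u, hu, v, hv, e1⟩, ⟨u', hu', v', hv', e2⟩⟩ := htb i
    refine ⟨B, T, pr v₀ ζ, pr v₀ u, pr v₀ v, pr v₀ u', pr v₀ v', hBT, ?_, (mid_pr v₀ hu).1,
      (mid_pr v₀ hv).1, (mid_pr v₀ hu').1, (mid_pr v₀ hv').1, ?_, ?_⟩
    · rw [hr, e1]
      simp only [map_mul, map_inv]
      rw [(mid_pr v₀ hu).2, (mid_pr v₀ hv).2, bk_pr v₀ (hne i)]
    · rw [e1, map_mul, map_mul, map_inv, pr_of v₀ (hne i)]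
    · rw [e2, map_mul, map_mul, pr_of v₀ (hne i)]
  choose B T ζ a b c d hBT hr ha hb hc hd hz1 hz2 using hdat
  let γ : R → {v : V // v ≠ v₀} := fun i => ⟨β i, hne i⟩
  have hγ : Function.Injective γ := fun i j h => hβ (congrArg Subtype.val h)
  -- shifted relators
  have s1 : ∀ (i : R) (e : Multiplicative ℤ), act v₀ e (ζ i) =
      act v₀ e (a i) * (of (γ i, T i + e.toAdd))⁻¹ * act v₀ e (b i) := by
    intro i e
    rw [hz1 i, map_mul, map_mul, map_inv, act_of]
  have s2 : ∀ (i : R) (e : Multiplicative ℤ), act v₀ e (ζ i) =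
      act v₀ e (c i) * of (γ i, B i + e.toAdd) * act v₀ e (d i) := by
    intro i e
    rw [hz2 i, map_mul, map_mul, act_of]
  -- the rules
  let base : {v : V // v ≠ v₀} × ℤ → Prop := fun p =>
    ¬ ∃ i, γ i = p.1 ∧ (T i - B i ≤ p.2 ∨ p.2 < 0)
  let W : {v : V // v ≠ v₀} × ℤ → NP v₀ := fun p =>
    if h : ∃ i, γ i = p.1 then
      (if T h.choose - B h.choose ≤ p.2 then
        act v₀ (Multiplicative.ofAdd (p.2 - T h.choose)) (b h.choose * a h.choose)
      else (act v₀ (Multiplicative.ofAdd (p.2 - B h.choose)) (d h.choose * c h.choose))⁻¹)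
    else 1
  have hW0 : ∀ (i : R) (k : ℤ), W (γ i, k) = if T i - B i ≤ k then
      act v₀ (Multiplicative.ofAdd (k - T i)) (b i * a i)
      else (act v₀ (Multiplicative.ofAdd (k - B i)) (d i * c i))⁻¹ := by
    intro i k
    have h : ∃ j, γ j = γ i := ⟨i, rfl⟩
    have h1 : h.choose = i := hγ h.choose_spec
    have h2 : W (γ i, k) = (if T h.choose - B h.choose ≤ k then
        act v₀ (Multiplicative.ofAdd (k - T h.choose)) (b h.choose * a h.choose)
      else (act v₀ (Multiplicative.ofAdd (k - B h.choose)) (d h.choose * c h.choose))⁻¹) :=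
      dif_pos h
    rw [h2, h1]
  have hW1 : ∀ (i : R) (k : ℤ), T i - B i ≤ k → W (γ i, k) =
      act v₀ (Multiplicative.ofAdd (k - T i)) (b i * a i) := by
    intro i k hk
    rw [hW0, if_pos hk]
  have hW2 : ∀ (i : R) (k : ℤ), k < 0 → W (γ i, k) =
      (act v₀ (Multiplicative.ofAdd (k - B i)) (d i * c i))⁻¹ := by
    intro i k hk
    have := hBT i
    rw [hW0, if_neg (by omega)]
  have hWl : ∀ p, ¬ base p → W p ∈ lw v₀ p.2 := by
    rintro ⟨v, k⟩ hp
    obtain ⟨i, hi, hk⟩ := not_not.1 hp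
    simp only at hi hk ⊢
    subst hi
    rcases hk with hk | hk
    · rw [hW1 i k hk]
      refine md_lw v₀ ?_ (act_md v₀ (Subgroup.mul_mem _ (hb i) (ha i)) _)
      intro k' h1 h2
      rw [toAdd_ofAdd] at h1 h2
      exact Or.inl ⟨by omega, by omega⟩
    · rw [hW2 i k hk]
      refine Subgroup.inv_mem _ (md_lw v₀ ?_ (act_md v₀ (Subgroup.mul_mem _ (hd i) (hc i)) _))
      intro k' h1 h2
      rw [toAdd_ofAdd] at h1 h2
      exact Or.inr ⟨hk, by omega⟩
  have rules : ∀ {A : Type} [Group A] (M : NP v₀ →* A),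
      (∀ i (e : Multiplicative ℤ), M (act v₀ e (ζ i)) = 1) ↔
        ∀ p, ¬ base p → M (of p) = M (W p) := by
    intro A _ M
    constructor
    · rintro H ⟨v, k⟩ hp
      obtain ⟨i, hi, hk⟩ := not_not.1 hp
      simp only at hi hk
      subst hi
      rcases hk with hk | hk
      · rw [hW1 i k hk, map_mul, map_mul]
        have h1 := H i (Multiplicative.ofAdd (k - T i))
        rw [s1, map_mul, map_mul, map_inv, grp1, toAdd_ofAdd, add_sub_cancel] at h1
        exact h1
      · rw [hW2 i k hk, map_inv, map_mul, map_mul]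
        have h1 := H i (Multiplicative.ofAdd (k - B i))
        rw [s2, map_mul, map_mul, grp2, toAdd_ofAdd, add_sub_cancel] at h1
        exact h1
    · intro H i e
      by_cases he : 0 ≤ B i + e.toAdd
      · have h0 : T i - B i ≤ T i + e.toAdd := by omega
        have h1 := H (γ i, T i + e.toAdd) (not_not.2 ⟨i, rfl, Or.inl h0⟩)
        rw [hW1 i _ h0, add_sub_cancel_left, ofAdd_toAdd, map_mul, map_mul] at h1
        rw [s1, map_mul, map_mul, map_inv, grp1]
        exact h1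
      · have h0 : B i + e.toAdd < 0 := by omega
        have h1 := H (γ i, B i + e.toAdd) (not_not.2 ⟨i, rfl, Or.inr h0⟩)
        rw [hW2 i _ h0, add_sub_cancel_left, ofAdd_toAdd, map_inv, map_mul, map_mul] at h1
        rw [s2, map_mul, map_mul, grp2]
        exact h1
  obtain ⟨Φ, hΦ1, hΦ2⟩ := exists_phi v₀ W base hWl
  have kill : ∀ i (e : Multiplicative ℤ), Φ (act v₀ e (ζ i)) = 1 := (rules Φ).2 hΦ2
  let M : NP v₀ →* PresentedGroup (Set.range r) := (PresentedGroup.mk (Set.range r)).comp (bk v₀)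
  have hM0 : ∀ i (e : Multiplicative ℤ), M (act v₀ e (ζ i)) = 1 := by
    intro i e
    change PresentedGroup.mk (Set.range r) (bk v₀ (act v₀ e (ζ i))) = 1
    have h5 : PresentedGroup.mk (Set.range r) (r i) = 1 :=
      PresentedGroup.mk_eq_one_iff.2 (Subgroup.subset_normalClosure ⟨i, rfl⟩)
    rw [bk_act, hr i, map_mul, map_mul, h5, mul_one, map_inv, mul_inv_cancel]
  have hM : ∀ y, M (Φ y) = M y := fun y =>
    phi_mod v₀ hWl hΦ1 hΦ2 M ((rules M).1 hM0) y
  -- the exponent sum of `v₀`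
  let ρ : PresentedGroup (Set.range r) →* Multiplicative ℤ :=
    PresentedGroup.toGroup (f := fun v => (RW v₀ (of v)).right) (by
      rintro _ ⟨i, rfl⟩
      have h1 : FreeGroup.lift (fun v => (RW v₀ (of v)).right) =
          (SemidirectProduct.rightHom).comp (RW v₀) := by
        apply FreeGroup.ext_hom
        intro v
        rw [FreeGroup.lift_apply_of]
        rfl
      rw [h1]
      change (RW v₀ (r i)).right = 1
      rw [← hr i, RW_bk]
      rfl)
  have hρ : ∀ w, ρ (PresentedGroup.mk (Set.range r) w) = (RW v₀ w).right := by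
    intro w
    have h1 : ρ.comp (PresentedGroup.mk (Set.range r)) =
        (SemidirectProduct.rightHom).comp (RW v₀) := by
      apply FreeGroup.ext_hom
      intro v
      change ρ (PresentedGroup.of v) = _
      rw [PresentedGroup.toGroup.of]
      rfl
    exact DFunLike.congr_fun h1 w
  have hker : ∀ y, M y ∈ ρ.ker := by
    intro y
    rw [MonoidHom.mem_ker]
    change ρ (PresentedGroup.mk (Set.range r) (bk v₀ y)) = 1
    rw [hρ, RW_bk]
    rfl
  have hsur : ∀ x ∈ ρ.ker, ∃ y, M y = x := by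
    intro x hx
    obtain ⟨w, rfl⟩ := PresentedGroup.mk_surjective (Set.range r) x
    refine ⟨(RW v₀ w).left, ?_⟩
    change PresentedGroup.mk (Set.range r) (bk v₀ (RW v₀ w).left) = _
    rw [word_eq]
    rw [← hρ]
    exact MonoidHom.mem_ker.1 hx
  -- elements of the kernel of `M` are killed by `Φ`
  have hMΦ : ∀ y, M y = 1 → Φ y = 1 := by
    intro y hy
    have hDat : Dat v₀ γ r T a b := by
      refine ⟨fun i => ?_, fun i => ?_, fun i => ?_⟩
      · have h1 : md v₀ (B i) (T i - 1) ≤ bel v₀ (T i) := by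
          rw [md, Subgroup.closure_le]
          rintro x ⟨v, h, _, h2, rfl⟩
          exact Subgroup.subset_closure ⟨v, h, by omega, rfl⟩
        exact h1 (ha i)
      · have h1 : md v₀ (B i) (T i - 1) ≤ bel v₀ (T i) := by
          rw [md, Subgroup.closure_le]
          rintro x ⟨v, h, _, h2, rfl⟩
          exact Subgroup.subset_closure ⟨v, h, by omega, rfl⟩
        exact h1 (hb i)
      · rw [← hr i, hz1 i]
    obtain ⟨S, y', hy', hS⟩ := cells hDat (bk v₀ y) (PresentedGroup.mk_eq_one_iff.1 hy)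
    rw [RW_bk] at hy'
    rw [SemidirectProduct.inl_injective hy']
    refine hS Φ fun dd _ => ?_
    have h2 : rel γ T a b dd.1 = ζ dd.1 := (hz1 dd.1).symm
    rw [h2]
    exact kill _ _
  refine ⟨ρ, ?_, ?_, ?_⟩
  · intro n
    refine ⟨PresentedGroup.mk (Set.range r) (of v₀ ^ n.toAdd), ?_⟩
    rw [hρ, map_zpow, RW_v0, ← map_zpow]
    change (Multiplicative.ofAdd (1 : ℤ)) ^ n.toAdd = n
    rw [← ofAdd_zsmul, smul_eq_mul, mul_one, ofAdd_toAdd]
  · let P : NP v₀ →* ρ.ker := M.codRestrict ρ.ker hker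
    have hP : Function.Surjective P := by
      rintro ⟨x, hx⟩
      obtain ⟨y, hy⟩ := hsur x hx
      exact ⟨y, Subtype.ext hy⟩
    have hPk : ∀ y, P y = 1 → Φ y = 1 := fun y hy => hMΦ y (congrArg Subtype.val hy)
    let Θ : ρ.ker →* NP v₀ :=
      P.liftOfRightInverse (Function.surjInv hP) (Function.rightInverse_surjInv hP)
        ⟨Φ, fun x hx => MonoidHom.mem_ker.2 (hPk x (MonoidHom.mem_ker.1 hx))⟩
    have hΘ : ∀ y, Θ (P y) = Φ y := fun y =>
      P.liftOfRightInverse_comp_apply (Function.surjInv hP) (Function.rightInverse_surjInv hP) _ y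
    have hinj : Function.Injective Θ := by
      rw [injective_iff_map_eq_one]
      intro x hx
      obtain ⟨y, rfl⟩ := hP x
      rw [hΘ] at hx
      have h1 := hM y
      rw [hx, map_one] at h1
      exact Subtype.ext h1.symm
    exact IsFreeGroup.ofMulEquiv (MonoidHom.ofInjective hinj).symm
  · intro hall
    have hfin : {p : {v : V // v ≠ v₀} × ℤ | base p}.Finite := by
      have hR : Finite R := Finite.of_injective β hβ
      have h1 : (⋃ i : R, (fun k : ℤ => (γ i, k)) '' Set.Icc 0 (T i - B i)).Finite :=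
        Set.finite_iUnion fun i => (Set.finite_Icc _ _).image _
      refine h1.subset ?_
      rintro ⟨v, k⟩ hp
      obtain ⟨i, hi⟩ := hall v.1 v.2
      have hi' : γ i = v := Subtype.ext hi
      refine Set.mem_iUnion.2 ⟨i, k, ?_, by rw [hi']⟩
      have hp' : ¬ ∃ i, γ i = v ∧ (T i - B i ≤ k ∨ k < 0) := hp
      constructor
      · by_contra h
        exact hp' ⟨i, hi', Or.inr (by omega)⟩
      · by_contra h
        exact hp' ⟨i, hi', Or.inl (by omega)⟩
    have hfin2 : ((fun p => M (of p)) '' {p : {v : V // v ≠ v₀} × ℤ | base p}).Finite :=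
      hfin.image _
    rw [Subgroup.fg_iff]
    refine ⟨_, ?_, hfin2⟩
    apply le_antisymm
    · rw [Subgroup.closure_le]
      rintro x ⟨p, _, rfl⟩
      exact hker _
    · intro x hx
      obtain ⟨y, rfl⟩ := hsur x hx
      rw [← hM y]
      exact phi_mem v₀ hWl hΦ1 hΦ2 M
        (Subgroup.closure ((fun p => M (of p)) '' {p : {v : V // v ≠ v₀} × ℤ | base p}))
        (fun p hp => Subgroup.subset_closure ⟨p, hp, rfl⟩) y

end Run7.h547.SL
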